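import Mathlib

/-!
# MP_956764_co, Q1 : the value sets `{A_v(0,d) : d ≥ 1}` for all patterns `v`

Let `m = |v|`.  If `v` contains a `1` and ends with exactly `s` zeros then the set of the values
`A_v(0,d)`, `d ≥ 1`, consists of all odd `l ≥ 1` and of the numbers `2 ^ μ * k` with `1 ≤ μ ≤ s`,
`k` odd, `k < 2 ^ (m - s)`.  If `v = 0^m` it consists of the odd `l < 2 ^ m` and of
`2, 4, 8, ..., 2 ^ m`.

The key point (`KL`, `surj`) is that the colours of the multiples `j * d` with `j ≤ L` odd can be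
prescribed arbitrarily, because the block counting functions `n ↦ e_v (j * n)` mod 2, `j` odd, are
linearly independent modulo periodic functions.
-/

namespace Pool.Agent.Results.MP_956764_co.ValuesAtZero

/-! ## Definitions -/

/-- The binary expansion of `n`, most significant digit first (`true` is the digit `1`), without
leading zeros; `0` has the empty expansion. -/
def binaryDigits (n : ℕ) : List Bool := (Nat.bits n).reverse

/-- The number of zeros that `v` begins with. -/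
def leadingZeros (v : List Bool) : ℕ := (v.takeWhile (fun b => !b)).length

/-- The number of zeros that `v` ends with. -/
def trailingZeros (v : List Bool) : ℕ := leadingZeros v.reverse

/-- The word in which the occurrences of `v` are counted: the binary expansion of `n`, except that
if `v` contains a `1` and begins with exactly `i` zeros then `i` zeros are put in front. -/
def word (v : List Bool) (n : ℕ) : List Bool :=
  if true ∈ v then List.replicate (leadingZeros v) false ++ binaryDigits n else binaryDigits n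

/-- The number of (possibly overlapping) occurrences of `v` as a block of consecutive letters
of `w`; an occurrence is recorded by the length `i` of the part of `w` that ends with it. -/
def occ (v w : List Bool) : ℕ :=
  ((Finset.range (w.length + 1)).filter (fun i => v <:+ w.take i)).card

/-- `e v n` is `e_v(n)`. -/
def e (v : List Bool) (n : ℕ) : ℕ := occ v (word v n)

/-- `A v n d` is `A_v(n,d)`, the infimum of the `l ≥ 1` with
`e_v (n + l d) ≢ e_v (n) (mod 2)` (it is `⊤` if there is no such `l`). -/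
noncomputable def A (v : List Bool) (n d : ℕ) : ℕ∞ :=
  ⨅ (l : ℕ) (_ : 1 ≤ l ∧ ¬ e v (n + l * d) ≡ e v n [MOD 2]), (l : ℕ∞)

/-! ## Digits and the counting function -/

/-- value of a list of digits, least significant digit first -/
def lval : List Bool → ℕ
  | [] => 0
  | b :: u => b.toNat + 2 * lval u

lemma lval_lt (u : List Bool) : lval u < 2 ^ u.length := by
  induction u with
  | nil => simp [lval]
  | cons b u ih =>
    have h : b.toNat ≤ 1 := Bool.toNat_le b
    simp only [lval, List.length_cons, pow_succ]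
    omega

lemma lval_append (u : List Bool) (b : Bool) : lval (u ++ [b]) = lval u + 2 ^ u.length * b.toNat := by
  induction u with
  | nil => simp [lval]
  | cons c u ih =>
    simp only [List.cons_append, lval, ih, List.length_cons, pow_succ]
    ring

lemma lval_zero_of_not_mem (u : List Bool) (h : true ∉ u) : lval u = 0 := by
  induction u with
  | nil => rfl
  | cons b u ih =>
    rw [List.mem_cons, not_or] at h
    have hb : b = false := by cases b <;> simp_all
    simp [lval, hb, ih h.2]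

/-- exact power of two dividing the value -/
lemma lval_factor (u : List Bool) (h : true ∈ u) :
    leadingZeros u < u.length ∧ ∃ V', Odd V' ∧ lval u = 2 ^ leadingZeros u * V' := by
  induction u with
  | nil => simp at h
  | cons b u ih =>
    cases b with
    | false =>
      have h' : true ∈ u := by simpa using h
      obtain ⟨h1, V', h2, h3⟩ := ih h'
      have e1 : leadingZeros (false :: u) = leadingZeros u + 1 := by simp [leadingZeros]
      refine ⟨by rw [e1]; simpa using h1, V', h2, ?_⟩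
      rw [e1, pow_succ]
      simp only [lval, h3]
      simp
      ring
    | true =>
      have e1 : leadingZeros (true :: u) = 0 := by simp [leadingZeros]
      refine ⟨by rw [e1]; simp, lval (true :: u), ?_, by rw [e1]; simp⟩
      exact ⟨lval u, by simp [lval]; ring⟩

lemma lval_ge (v : List Bool) (h : true ∈ v) :
    leadingZeros v < v.length ∧ 2 ^ (v.length - leadingZeros v - 1) ≤ lval v.reverse := by
  induction v with
  | nil => simp at h
  | cons b v ih =>
    cases b with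
    | false =>
      have h' : true ∈ v := by simpa using h
      obtain ⟨h1, h2⟩ := ih h'
      have e1 : leadingZeros (false :: v) = leadingZeros v + 1 := by simp [leadingZeros]
      refine ⟨by rw [e1]; simpa using h1, ?_⟩
      rw [e1, List.reverse_cons, lval_append]
      have e2 : (false :: v).length - (leadingZeros v + 1) - 1 = v.length - leadingZeros v - 1 := by
        rw [List.length_cons]; omega
      rw [e2]
      simpa using h2
    | true =>
      have e1 : leadingZeros (true :: v) = 0 := by simp [leadingZeros]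
      refine ⟨by rw [e1]; simp, ?_⟩
      rw [e1, List.reverse_cons, lval_append]
      simp

lemma bits_of_pos {n : ℕ} (hn : n ≠ 0) : Nat.bits n = (decide (n % 2 = 1)) :: Nat.bits (n / 2) := by
  have h1 : Nat.bit (decide (n % 2 = 1)) (n / 2) = n := by
    rw [Nat.bit_val]
    rcases Nat.mod_two_eq_zero_or_one n with h | h
    · simp [h]; omega
    · simp [h]; omega
  conv_lhs => rw [← h1]
  apply Nat.bits_append_bit
  intro h2
  have : n = 1 := by omega
  subst this
  rfl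

lemma initial_iff (u : List Bool) : ∀ (n i : ℕ), u <+: (Nat.bits n ++ List.replicate i false) ↔
    n % 2 ^ u.length = lval u ∧ u.length ≤ Nat.size n + i := by
  induction u with
  | nil => intro n i; simp [lval, Nat.mod_one]
  | cons b u ih =>
    intro n i
    by_cases hn : n = 0
    · subst hn
      cases i with
      | zero => simp
      | succ i =>
        have h1 := ih 0 i
        simp only [Nat.zero_bits, List.nil_append, Nat.size_zero, zero_add, Nat.zero_mod] at h1 ⊢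
        rw [List.replicate_succ, List.cons_prefix_cons, h1]
        cases b
        · simp only [true_and, lval, List.length_cons, Bool.toNat_false]
          constructor
          · rintro ⟨h2, h3⟩; omega
          · rintro ⟨h2, h3⟩; omega
        · simp only [lval, List.length_cons, Bool.toNat_true]
          constructor
          · rintro ⟨h2, h3⟩; exact absurd h2 (by decide)
          · rintro ⟨h2, h3⟩; omega
    · have h1 := ih (n / 2) i
      rw [bits_of_pos hn, List.cons_append, List.cons_prefix_cons, h1]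
      have hs : Nat.size n = Nat.size (n / 2) + 1 := by
        rw [← Nat.size_eq_bits_len, ← Nat.size_eq_bits_len, bits_of_pos hn, List.length_cons]
      rw [hs, List.length_cons]
      have hm : n % 2 ^ (u.length + 1) = n % 2 + 2 * (n / 2 % 2 ^ u.length) := by
        rw [pow_succ', Nat.mod_mul]
      rw [hm]
      simp only [lval]
      rcases Nat.mod_two_eq_zero_or_one n with h | h
      · rw [h]
        cases b
        · simp only [Bool.toNat_false]
          constructor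
          · rintro ⟨h2, h3, h4⟩; omega
          · rintro ⟨h2, h3⟩; exact ⟨by simp, by omega, by omega⟩
        · simp only [Bool.toNat_true]
          constructor
          · rintro ⟨h2, h3, h4⟩; simp at h2
          · rintro ⟨h2, h3⟩; omega
      · rw [h]
        cases b
        · simp only [Bool.toNat_false]
          constructor
          · rintro ⟨h2, h3, h4⟩; simp at h2
          · rintro ⟨h2, h3⟩; omega
        · simp only [Bool.toNat_true]
          constructor
          · rintro ⟨h2, h3, h4⟩; omega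
          · rintro ⟨h2, h3⟩; exact ⟨by simp, by omega, by omega⟩

lemma occ_append (v w : List Bool) (b : Bool) :
    occ v (w ++ [b]) = occ v w + if v <:+ (w ++ [b]) then 1 else 0 := by
  unfold occ
  rw [List.length_append, List.length_singleton, Finset.range_add_one (n := w.length + 1),
    Finset.filter_insert]
  have h1 : (Finset.range (w.length + 1)).filter (fun i => v <:+ (w ++ [b]).take i) =
      (Finset.range (w.length + 1)).filter (fun i => v <:+ w.take i) := by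
    apply Finset.filter_congr
    intro i hi
    rw [Finset.mem_range] at hi
    rw [List.take_append_of_le_length (by omega)]
  rw [h1]
  have h2 : (w ++ [b]).take (w.length + 1) = w ++ [b] := by
    apply List.take_of_length_le; simp
  rw [h2]
  split_ifs with h
  · rw [Finset.card_insert_of_notMem]
    simp
  · rfl

lemma word_of_pos (v : List Bool) {n : ℕ} (hn : n ≠ 0) :
    word v n = word v (n / 2) ++ [decide (n % 2 = 1)] := by
  unfold word binaryDigits
  rw [bits_of_pos hn]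
  split_ifs <;> simp

lemma e_of_pos (v : List Bool) {n : ℕ} (hn : n ≠ 0) :
    e v n = e v (n / 2) + if v <:+ word v n then 1 else 0 := by
  unfold e
  conv_lhs => rw [word_of_pos v hn]
  rw [occ_append, ← word_of_pos v hn]

lemma suffix_iff (v : List Bool) {n : ℕ} (hn : n ≠ 0) :
    v <:+ word v n ↔ n % 2 ^ v.length = lval v.reverse := by
  rw [← List.reverse_prefix]
  unfold word binaryDigits
  split_ifs with h
  · rw [List.reverse_append, List.reverse_reverse, List.reverse_replicate, initial_iff,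
      List.length_reverse]
    constructor
    · exact fun h => h.1
    · intro h1
      refine ⟨h1, ?_⟩
      obtain ⟨h2, h3⟩ := lval_ge v h
      have h4 : 2 ^ (v.length - leadingZeros v - 1) ≤ n := by
        calc _ ≤ lval v.reverse := h3
          _ = n % 2 ^ v.length := h1.symm
          _ ≤ n := Nat.mod_le _ _
      have h5 := Nat.lt_size.2 h4
      omega
  · rw [List.reverse_reverse]
    have := initial_iff v.reverse n 0
    rw [List.replicate_zero, List.append_nil] at this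
    rw [this, List.length_reverse]
    constructor
    · exact fun h => h.1
    · intro h1
      refine ⟨h1, ?_⟩
      have h2 : lval v.reverse = 0 := lval_zero_of_not_mem _ (by simpa using h)
      rw [h2] at h1
      have h3 : 2 ^ v.length ≤ n := Nat.le_of_dvd (by omega) (Nat.dvd_of_mod_eq_zero h1)
      have h4 := Nat.lt_size.2 h3
      omega

lemma e_rec (v : List Bool) {n : ℕ} (hn : n ≠ 0) :
    e v n = e v (n / 2) + if n % 2 ^ v.length = lval v.reverse then 1 else 0 := by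
  rw [e_of_pos v hn]
  congr 1
  by_cases h : v <:+ word v n
  · rw [if_pos h, if_pos ((suffix_iff v hn).1 h)]
  · rw [if_neg h, if_neg (fun h' => h ((suffix_iff v hn).2 h'))]

lemma e_zero (v : List Bool) (hv : v ≠ []) : e v 0 = 0 := by
  unfold e occ
  rw [Finset.card_eq_zero, Finset.filter_eq_empty_iff]
  intro i _ h
  have h1 : ∀ b ∈ v, b ∈ word v 0 := fun b hb => List.mem_of_mem_take (h.subset hb)
  unfold word binaryDigits at h1
  split_ifs at h1 with h2
  · have := h1 true h2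
    simp at this
  · obtain ⟨b, hb⟩ := List.exists_mem_of_ne_nil v hv
    have := h1 b hb
    simp at this

/-! ## Window sums -/

/-- sum of `φ` over all windows of `n` -/
def H (φ : ℕ → ZMod 2) (m n : ℕ) : ZMod 2 := ∑ t ∈ Finset.range n, φ (n / 2 ^ t % 2 ^ m)

/-- partial sum -/
def S (φ : ℕ → ZMod 2) (m K x y : ℕ) : ZMod 2 :=
  ∑ t ∈ Finset.range K, φ ((x + 2 ^ K * y) / 2 ^ t % 2 ^ m)

section abs
variable {φ : ℕ → ZMod 2} {m : ℕ}

lemma sum_tail (h0 : φ 0 = 0) {n T T' : ℕ} (h : n < 2 ^ T) (hT : T ≤ T') :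
    ∑ t ∈ Finset.range T', φ (n / 2 ^ t % 2 ^ m) = ∑ t ∈ Finset.range T, φ (n / 2 ^ t % 2 ^ m) := by
  symm
  apply Finset.sum_subset (Finset.range_mono hT)
  intro t _ ht
  rw [Finset.mem_range, not_lt] at ht
  have : n / 2 ^ t = 0 := Nat.div_eq_of_lt (lt_of_lt_of_le h (Nat.pow_le_pow_right (by norm_num) ht))
  rw [this, Nat.zero_mod, h0]

lemma H_eq (h0 : φ 0 = 0) {n : ℕ} (T : ℕ) (h : n < 2 ^ T) :
    H φ m n = ∑ t ∈ Finset.range T, φ (n / 2 ^ t % 2 ^ m) := by
  unfold H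
  rcases le_total n T with h1 | h1
  · rw [sum_tail h0 (Nat.lt_two_pow_self) h1]
  · rw [sum_tail h0 h h1]

lemma H_zero : H φ m 0 = 0 := by simp [H]

lemma H_rec (h0 : φ 0 = 0) (n : ℕ) : H φ m n = φ (n % 2 ^ m) + H φ m (n / 2) := by
  have h1 : n < 2 ^ (n + 1) := lt_trans Nat.lt_two_pow_self (Nat.pow_lt_pow_right (by norm_num) (Nat.lt_succ_self n))
  have h2 : n / 2 < 2 ^ n := lt_of_le_of_lt (Nat.div_le_self _ _) Nat.lt_two_pow_self
  rw [H_eq h0 (n + 1) h1, H_eq h0 n h2, Finset.sum_range_succ']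
  simp only [pow_zero, Nat.div_one]
  rw [add_comm]
  congr 1
  apply Finset.sum_congr rfl
  intro t _
  rw [Nat.div_div_eq_div_mul, pow_succ']

lemma H_split (h0 : φ 0 = 0) {x K : ℕ} (y : ℕ) (hx : x < 2 ^ K) :
    H φ m (x + 2 ^ K * y) = S φ m K x y + H φ m y := by
  have h2 : y < 2 ^ y := Nat.lt_two_pow_self
  have h1 : x + 2 ^ K * y < 2 ^ (K + y) := by
    rw [pow_add]
    calc x + 2 ^ K * y < 2 ^ K + 2 ^ K * y := by omega
      _ = 2 ^ K * (y + 1) := by ring
      _ ≤ 2 ^ K * 2 ^ y := Nat.mul_le_mul_left _ h2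
  rw [H_eq h0 (K + y) h1, H_eq h0 y h2, Finset.sum_range_add]
  unfold S
  congr 1
  apply Finset.sum_congr rfl
  intro t _
  congr 2
  rw [pow_add, ← Nat.div_div_eq_div_mul]
  congr 1
  rw [Nat.add_mul_div_left _ _ (by positivity), Nat.div_eq_of_lt hx, zero_add]

lemma S_congr {K x y y' : ℕ} (h : y ≡ y' [MOD 2 ^ m]) : S φ m K x y = S φ m K x y' := by
  unfold S
  apply Finset.sum_congr rfl
  intro t ht
  rw [Finset.mem_range] at ht
  congr 1
  have hK : 2 ^ K = 2 ^ t * 2 ^ (K - t) := by rw [← pow_add]; congr 1; omega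
  have key : ∀ y, (x + 2 ^ K * y) / 2 ^ t = x / 2 ^ t + 2 ^ (K - t) * y := by
    intro y
    rw [hK, mul_assoc, Nat.add_mul_div_left _ _ (by positivity)]
  rw [key, key]
  exact Nat.ModEq.add_left _ (Nat.ModEq.mul_left _ h)

lemma S_zero (h0 : φ 0 = 0) {K x : ℕ} (hx : x < 2 ^ K) : S φ m K x 0 = H φ m x := by
  rw [H_eq h0 K hx]; simp [S]

lemma H_add (h0 : φ 0 = 0) {x K y : ℕ} (hx : x < 2 ^ K) (hy : 2 ^ m ∣ y) :
    H φ m (x + 2 ^ K * y) = H φ m x + H φ m y := by
  rw [H_split h0 y hx, S_congr ((Nat.modEq_zero_iff_dvd).2 hy), S_zero h0 hx]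

lemma delta_aux (h0 : φ 0 = 0) {r R Q z : ℕ} (hr : r + 1 < 2 ^ R) (hQ : R + m ≤ Q) :
    H φ m (r + 1 + 2 ^ Q * z) + H φ m (r + 2 ^ Q * z) = H φ m (r + 1) + H φ m r := by
  have h1 : 2 ^ Q * z = 2 ^ R * (2 ^ (Q - R) * z) := by
    rw [← mul_assoc, ← pow_add]; congr 2; omega
  have h2 : 2 ^ m ∣ 2 ^ (Q - R) * z := Dvd.dvd.mul_right (pow_dvd_pow 2 (by omega)) z
  rw [h1, H_add h0 hr h2, H_add h0 (by omega) h2]
  have : H φ m (2 ^ (Q - R) * z) + H φ m (2 ^ (Q - R) * z) = 0 := CharTwo.add_self_eq_zero _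
  linear_combination this

lemma choose_a (l : ℕ) (hl : 1 ≤ l) : ∃ a K ρ, Odd a ∧ 1 ≤ K ∧ l * a = 2 ^ K + ρ ∧ ρ < 2 ^ K ∧
    ∀ j < l, j * a < 2 ^ K := by
  have hK : 2 * l ^ 2 < 2 ^ (2 * l ^ 2) := Nat.lt_two_pow_self
  set K := 2 * l ^ 2 with hKdef
  have hK1 : 1 ≤ K := by
    have : 1 ≤ l ^ 2 := Nat.one_le_pow _ _ hl
    omega
  obtain ⟨a, ha, h1, h2⟩ : ∃ a, Odd a ∧ 2 ^ K / l + 1 ≤ a ∧ a ≤ 2 ^ K / l + 2 := by
    rcases Nat.even_or_odd (2 ^ K / l) with h | h
    · exact ⟨2 ^ K / l + 1, h.add_one, le_rfl, by omega⟩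
    · exact ⟨2 ^ K / l + 2, by obtain ⟨t, ht⟩ := h; exact ⟨t + 1, by omega⟩, by omega, le_rfl⟩
  have h3 : 2 ^ K < l * (2 ^ K / l + 1) := Nat.lt_mul_div_succ _ hl
  have h4 : l * (2 ^ K / l) ≤ 2 ^ K := Nat.mul_div_le _ _
  have h5 : 2 ^ K < l * a := lt_of_lt_of_le h3 (Nat.mul_le_mul_left _ h1)
  have h6 : l * a ≤ 2 ^ K + 2 * l := by
    calc l * a ≤ l * (2 ^ K / l + 2) := Nat.mul_le_mul_left _ h2
      _ = l * (2 ^ K / l) + 2 * l := by ring
      _ ≤ _ := by omega
  have hll : l ≤ l ^ 2 := Nat.le_self_pow (by norm_num) l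
  have h7 : 2 * l < a := by
    by_contra hcon
    push Not at hcon
    have : l * a ≤ l * (2 * l) := Nat.mul_le_mul_left _ hcon
    have h8 : l * (2 * l) = 2 * l ^ 2 := by ring
    omega
  refine ⟨a, K, l * a - 2 ^ K, ha, hK1, by omega, by omega, ?_⟩
  intro j hj
  have h9 : j * a + a ≤ l * a := by
    calc j * a + a = (j + 1) * a := by ring
      _ ≤ l * a := Nat.mul_le_mul_right _ hj
  omega

/-- non-constancy condition -/
def NC (φ : ℕ → ZMod 2) (m : ℕ) : Prop :=
  ∀ M, ∃ r r', Odd r ∧ Odd r' ∧ r ≡ r' [MOD 2 ^ M] ∧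
    H φ m (r + 1) + H φ m r ≠ H φ m (r' + 1) + H φ m r'

lemma KL (h0 : φ 0 = 0) (hNC : NC φ m) (J : Finset ℕ) (hJ : J.Nonempty) (hodd : ∀ j ∈ J, Odd j)
    (G : ℕ → ZMod 2) (M : ℕ) (hG : ∀ c c', c ≡ c' [MOD 2 ^ M] → G c = G c') :
    ∃ c, Odd c ∧ ∑ j ∈ J, H φ m (j * c) + G c ≠ 0 := by
  by_contra hcon
  push Not at hcon
  obtain ⟨l, hl, hmax⟩ : ∃ l ∈ J, ∀ j ∈ J, j ≤ l := ⟨J.max' hJ, J.max'_mem hJ, fun j hj => J.le_max' j hj⟩
  have hlodd : Odd l := hodd l hl
  have hl1 : 1 ≤ l := hlodd.pos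
  obtain ⟨a, K, ρ, ha, hK1, hla, hρ, hja⟩ := choose_a l hl1
  have hJ' : ∀ j ∈ J.erase l, j < l := by
    intro j hj
    have h1 := Finset.ne_of_mem_erase hj
    have h2 := hmax j (Finset.mem_of_mem_erase hj)
    omega
  have hpowK : Even (2 ^ K) := (Nat.even_pow' (by omega)).2 even_two
  have main : ∀ b, Odd b → H φ m (l * b + 1) + H φ m (l * b) =
      (∑ j ∈ J.erase l, S φ m K (j * a) (j * b) + S φ m K ρ (l * b + 1)) + G b + G (a + 2 ^ K * b) := by
    intro b hb
    have e1 := hcon b hb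
    have hc : Odd (a + 2 ^ K * b) := ha.add_even (hpowK.mul_right _)
    have e2 := hcon _ hc
    rw [← Finset.add_sum_erase J _ hl] at e1 e2
    have e3 : H φ m (l * (a + 2 ^ K * b)) = S φ m K ρ (l * b + 1) + H φ m (l * b + 1) := by
      rw [← H_split h0 _ hρ]
      congr 1
      calc l * (a + 2 ^ K * b) = l * a + 2 ^ K * (l * b) := by ring
        _ = _ := by rw [hla]; ring
    have e4 : ∑ j ∈ J.erase l, H φ m (j * (a + 2 ^ K * b)) =
        ∑ j ∈ J.erase l, S φ m K (j * a) (j * b) + ∑ j ∈ J.erase l, H φ m (j * b) := by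
      rw [← Finset.sum_add_distrib]
      apply Finset.sum_congr rfl
      intro j hj
      rw [← H_split h0 _ (hja j (hJ' j hj))]
      congr 1
      ring
    rw [e3, e4] at e2
    have hx : ∀ x : ZMod 2, x + x = 0 := CharTwo.add_self_eq_zero
    have e5 := hx (∑ j ∈ J.erase l, H φ m (j * b))
    have e6 := hx (H φ m (l * b))
    have e7 := hx (∑ j ∈ J.erase l, S φ m K (j * a) (j * b))
    have e8 := hx (S φ m K ρ (l * b + 1))
    have e9 := hx (G b)
    have e10 := hx (G (a + 2 ^ K * b))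
    linear_combination e1 + e2 - e5 - e7 - e8 - e9 - e10
  obtain ⟨r, r', hr, hr', hrr, hne⟩ := hNC (M + m)
  -- inverse of l
  set R := r + r' + 1 with hR
  have hR1 : r + 1 < 2 ^ (R + 1) := lt_of_le_of_lt (by omega) (lt_trans Nat.lt_two_pow_self (Nat.pow_lt_pow_right (by norm_num) (Nat.lt_succ_self R)))
  have hR2 : r' + 1 < 2 ^ (R + 1) := lt_of_le_of_lt (by omega) (lt_trans Nat.lt_two_pow_self (Nat.pow_lt_pow_right (by norm_num) (Nat.lt_succ_self R)))
  set Q := R + 1 + m with hQ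
  have hcop : Nat.Coprime l (2 ^ Q) := Nat.Coprime.pow_right _ (Nat.coprime_two_right.2 hlodd)
  obtain ⟨u, -, hu⟩ := Nat.exists_mul_mod_eq_one_of_coprime hcop (Nat.one_lt_two_pow (by omega))
  have hQpow : (2 : ℕ) ∣ 2 ^ Q := dvd_pow_self 2 (by omega)
  have hluodd : Odd (l * u) := by
    rw [Nat.odd_iff]
    have := Nat.mod_mod_of_dvd (l * u) hQpow
    rw [hu] at this
    omega
  have huodd : Odd u := (Nat.odd_mul.1 hluodd).2
  have key : ∀ r, r < 2 ^ Q → l * (u * r) = r + 2 ^ Q * (l * (u * r) / 2 ^ Q) := by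
    intro r hr
    have h1 : l * (u * r) % 2 ^ Q = r := by
      rw [← mul_assoc, Nat.mul_mod, hu, one_mul, Nat.mod_mod, Nat.mod_eq_of_lt hr]
    have h2 := Nat.mod_add_div (l * (u * r)) (2 ^ Q)
    rw [h1] at h2
    exact h2.symm
  have hRQ : (2 : ℕ) ^ (R + 1) ≤ 2 ^ Q := Nat.pow_le_pow_right (by norm_num) (by omega)
  have hb := main (u * r) (huodd.mul hr)
  have hb' := main (u * r') (huodd.mul hr')
  have hbb : u * r ≡ u * r' [MOD 2 ^ (M + m)] := hrr.mul_left u
  have hbm : u * r ≡ u * r' [MOD 2 ^ m] := hbb.of_dvd (pow_dvd_pow 2 (by omega))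
  have hbM : u * r ≡ u * r' [MOD 2 ^ M] := hbb.of_dvd (pow_dvd_pow 2 (by omega))
  have hd1 : H φ m (l * (u * r) + 1) + H φ m (l * (u * r)) = H φ m (r + 1) + H φ m r := by
    rw [key r (by omega)]
    rw [← delta_aux h0 hR1 (le_of_eq hQ.symm) (z := l * (u * r) / 2 ^ Q)]
    congr 2
    ring
  have hd2 : H φ m (l * (u * r') + 1) + H φ m (l * (u * r')) = H φ m (r' + 1) + H φ m r' := by
    rw [key r' (by omega)]
    rw [← delta_aux h0 hR2 (le_of_eq hQ.symm) (z := l * (u * r') / 2 ^ Q)]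
    congr 2
    ring
  apply hne
  rw [← hd1, ← hd2, hb, hb', hG _ _ hbM, hG _ _ ((hbM.mul_left (2 ^ K)).add_left a),
    S_congr ((hbm.mul_left l).add_right 1)]
  congr 3
  apply Finset.sum_congr rfl
  intro j _
  exact S_congr (hbm.mul_left j)

lemma NC_A (h0 : φ 0 = 0) (h1 : φ (2 ^ m - 1) = 1) (hm : 1 ≤ m) : NC φ m := by
  intro M
  set N := M + m + 1 with hN
  have hp : ∀ k, 1 ≤ k → (2 : ℕ) ∣ 2 ^ k := fun k hk => dvd_pow_self 2 (by omega)
  have hpos : ∀ k, 1 ≤ (2 : ℕ) ^ k := fun k => Nat.one_le_two_pow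
  refine ⟨2 ^ N - 1, 2 ^ (N + 1) - 1, ?_, ?_, ?_, ?_⟩
  · rw [Nat.odd_iff]; have := hp N (by omega); have := hpos N; omega
  · rw [Nat.odd_iff]; have := hp (N + 1) (by omega); have := hpos (N + 1); omega
  · have e1 : 2 ^ (N + 1) - 1 = (2 ^ N - 1) + 2 ^ M * 2 ^ (N - M) := by
      rw [← pow_add, show M + (N - M) = N by omega, pow_succ]
      have := hpos N
      omega
    rw [e1]
    unfold Nat.ModEq
    rw [Nat.add_mul_mod_self_left]
  · have e1 : 2 ^ (N + 1) - 1 + 1 = 2 ^ (N + 1) := Nat.sub_add_cancel (hpos _)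
    have e2 : 2 ^ N - 1 + 1 = 2 ^ N := Nat.sub_add_cancel (hpos _)
    rw [e1, e2, H_rec h0 (2 ^ (N + 1)), H_rec h0 (2 ^ (N + 1) - 1)]
    have e3 : 2 ^ (N + 1) % 2 ^ m = 0 := Nat.mod_eq_zero_of_dvd (pow_dvd_pow 2 (by omega))
    have e4 : 2 ^ (N + 1) / 2 = 2 ^ N := by rw [pow_succ]; omega
    have e5 : (2 ^ (N + 1) - 1) / 2 = 2 ^ N - 1 := by
      rw [pow_succ]; have := hpos N; omega
    have e6 : (2 ^ (N + 1) - 1) % 2 ^ m = 2 ^ m - 1 := by
      have h3 : 2 ^ (N + 1) = 2 ^ m * 2 ^ (N + 1 - m) := by rw [← pow_add]; congr 1; omega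
      have h4 : 2 ^ (N + 1) - 1 = (2 ^ m - 1) + 2 ^ m * (2 ^ (N + 1 - m) - 1) := by
        rw [Nat.mul_sub, ← h3, mul_one]
        have := hpos m
        have : 2 ^ m ≤ 2 ^ (N + 1) := Nat.pow_le_pow_right (by norm_num) (by omega)
        omega
      rw [h4, Nat.add_mul_mod_self_left]
      exact Nat.mod_eq_of_lt (by have := hpos m; omega)
    rw [e3, e4, e5, e6, h0, h1]
    intro h
    have : (1 : ZMod 2) = 0 := by linear_combination -h
    exact absurd this (by decide)

lemma NC_B (h0 : φ 0 = 0) (w : ℕ) (hw : Odd w) (hm : 2 ≤ m)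
    (h1 : φ (w % 2 ^ m) + φ ((w - 1) % 2 ^ m) + φ ((w + 2 ^ (m - 1)) % 2 ^ m)
      + φ ((w - 1 + 2 ^ (m - 1)) % 2 ^ m) = 1) : NC φ m := by
  intro M
  set N := M + 1 with hN
  have hw1 : 1 ≤ w := hw.pos
  have hp : ∀ k, 1 ≤ k → (2 : ℕ) ∣ 2 ^ k := fun k hk => dvd_pow_self 2 (by omega)
  have hpos : ∀ k, 1 ≤ (2 : ℕ) ^ k := fun k => Nat.one_le_two_pow
  have hodd : ∀ W, 1 ≤ W → Odd (2 ^ N * W - 1) := by
    intro W hW
    rw [Nat.odd_iff]
    have h3 : (2 : ℕ) ∣ 2 ^ N * W := Dvd.dvd.mul_right (hp N (by omega)) W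
    have : 1 ≤ 2 ^ N * W := Nat.mul_pos (hpos N) hW
    omega
  have hsub : ∀ W, 1 ≤ W → 2 ^ N * W - 1 = (2 ^ N - 1) + 2 ^ N * (W - 1) := by
    intro W hW
    rw [Nat.mul_sub, mul_one]
    have : 2 ^ N * 1 ≤ 2 ^ N * W := Nat.mul_le_mul_left _ hW
    have := hpos N
    omega
  have hlt : 2 ^ N - 1 < 2 ^ N := by have := hpos N; omega
  have hΔ : ∀ W, 1 ≤ W → Odd W → H φ m (2 ^ N * W - 1 + 1) + H φ m (2 ^ N * W - 1) =
      S φ m N 0 W + S φ m N (2 ^ N - 1) (W - 1) + φ (W % 2 ^ m) + φ ((W - 1) % 2 ^ m) := by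
    intro W hW hWo
    have h2 : 2 ^ N * W - 1 + 1 = 0 + 2 ^ N * W := by
      have : 1 ≤ 2 ^ N * W := Nat.mul_pos (hpos N) hW
      omega
    rw [h2, hsub W hW, H_split h0 _ (Nat.two_pow_pos N), H_split h0 _ hlt, H_rec h0 W, H_rec h0 (W - 1)]
    have h3 : (W - 1) / 2 = W / 2 := by rw [Nat.odd_iff] at hWo; omega
    rw [h3]
    have h4 : H φ m (W / 2) + H φ m (W / 2) = 0 := CharTwo.add_self_eq_zero _
    linear_combination h4
  have hmm : 2 ^ m = 2 * 2 ^ (m - 1) := by rw [← pow_succ']; congr 1; omega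
  have hS : ∀ x y, x < 2 ^ N → S φ m N x (y + 2 ^ (m - 1)) = S φ m N x y := by
    intro x y hx
    unfold S
    apply Finset.sum_congr rfl
    intro t ht
    rw [Finset.mem_range] at ht
    congr 1
    have e1 : x + 2 ^ N * (y + 2 ^ (m - 1)) = x + 2 ^ N * y + 2 ^ t * (2 ^ (N - 1 - t) * 2 ^ m) := by
      rw [hmm]
      have : 2 ^ N = 2 ^ t * (2 ^ (N - 1 - t) * 2) := by
        rw [← pow_succ, ← pow_add]; congr 1; omega
      rw [this]; ring
    rw [e1, Nat.add_mul_div_left _ _ (Nat.two_pow_pos t), Nat.add_mul_mod_self_right]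
  have hev : Even (2 ^ (m - 1)) := (Nat.even_pow' (by omega)).2 even_two
  refine ⟨2 ^ N * w - 1, 2 ^ N * (w + 2 ^ (m - 1)) - 1, hodd _ hw1, hodd _ (by omega), ?_, ?_⟩
  · have e1 : 2 ^ N * (w + 2 ^ (m - 1)) - 1 = (2 ^ N * w - 1) + 2 ^ M * (2 * 2 ^ (m - 1)) := by
      have : 1 ≤ 2 ^ N * w := Nat.mul_pos (hpos N) hw1
      have h5 : 2 ^ N = 2 ^ M * 2 := pow_succ 2 M
      have h6 : 2 ^ N * (w + 2 ^ (m - 1)) = 2 ^ N * w + 2 ^ M * (2 * 2 ^ (m - 1)) := by
        rw [h5]; ring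
      omega
    rw [e1]
    unfold Nat.ModEq
    rw [Nat.add_mul_mod_self_left]
  · rw [hΔ w hw1 hw, hΔ (w + 2 ^ (m - 1)) (by omega) (hw.add_even hev), hS 0 w (Nat.two_pow_pos N),
      show w + 2 ^ (m - 1) - 1 = (w - 1) + 2 ^ (m - 1) by omega, hS _ _ hlt]
    intro h
    have hx : ∀ x : ZMod 2, x + x = 0 := CharTwo.add_self_eq_zero
    have h5 := hx (φ ((w + 2 ^ (m - 1)) % 2 ^ m))
    have h6 := hx (φ ((w - 1 + 2 ^ (m - 1)) % 2 ^ m))
    have : (1 : ZMod 2) = 0 := by linear_combination h - h1 + h5 + h6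
    exact absurd this (by decide)

lemma zmod2_cases (x : ZMod 2) : x = 0 ∨ x = 1 := by
  revert x; decide

lemma surj (h0 : φ 0 = 0) (hNC : NC φ m) (L : ℕ) (T : ℕ → ZMod 2) :
    ∃ c, 2 ^ m ∣ c ∧ ∀ j ≤ L, Odd j → H φ m (j * c) = T j := by
  classical
  set I : Finset ℕ := (Finset.range (L + 1)).filter (fun j => Odd j) with hI
  have hmemI : ∀ j ∈ I, j ≤ L := by
    intro j hj
    have h := Finset.mem_range.1 (Finset.mem_filter.1 hj).1
    omega
  let W : Submodule (ZMod 2) (I → ZMod 2) :=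
    { carrier := {w | ∃ c, 2 ^ m ∣ c ∧ ∀ j : I, w j = H φ m (j * c)}
      zero_mem' := ⟨0, dvd_zero _, fun j => by simp [H_zero]⟩
      add_mem' := by
        rintro w w' ⟨c, hc, hw⟩ ⟨c', hc', hw'⟩
        refine ⟨c + 2 ^ (L * c) * c', (Nat.dvd_add_right hc).2 (Dvd.dvd.mul_left hc' _), ?_⟩
        intro j
        have hj : (j : ℕ) ≤ L := hmemI _ j.2
        have h1 : (j : ℕ) * (c + 2 ^ (L * c) * c') = j * c + 2 ^ (L * c) * (j * c') := by ring
        have h2 : (j : ℕ) * c < 2 ^ (L * c) :=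
          lt_of_le_of_lt (Nat.mul_le_mul_right c hj) Nat.lt_two_pow_self
        rw [h1, H_add h0 h2 (Dvd.dvd.mul_left hc' _), Pi.add_apply, hw, hw']
      smul_mem' := by
        rintro a w ⟨c, hc, hw⟩
        rcases zmod2_cases a with rfl | rfl
        · exact ⟨0, dvd_zero _, fun j => by simp [H_zero]⟩
        · exact ⟨c, hc, fun j => by simp [hw j]⟩ }
  by_cases hW : W = ⊤
  · have hmem : (fun j : I => T j) ∈ W := by rw [hW]; exact Submodule.mem_top
    obtain ⟨c, hc, hw⟩ := hmem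
    refine ⟨c, hc, fun j hj hjo => ?_⟩
    have hjI : j ∈ I := by
      rw [hI, Finset.mem_filter, Finset.mem_range]; exact ⟨by omega, hjo⟩
    exact (hw ⟨j, hjI⟩).symm
  · exfalso
    obtain ⟨f, hf0, hfW⟩ := Submodule.exists_le_ker_of_lt_top W (lt_top_iff_ne_top.2 hW)
    let F : I → ZMod 2 := fun i => f (fun j => if i = j then 1 else 0)
    have hf : ∀ w : I → ZMod 2, f w = ∑ j : I, w j * F j := by
      intro w
      rw [LinearMap.pi_apply_eq_sum_univ f w]
      rfl
    set J : Finset ℕ := (Finset.univ.filter (fun j : I => F j = 1)).map (Function.Embedding.subtype _) with hJ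
    have hsumJ : ∀ g : ℕ → ZMod 2, ∑ j ∈ J, g j = f (fun j : I => g j) := by
      intro g
      rw [hf, hJ, Finset.sum_map, Finset.sum_filter]
      apply Finset.sum_congr rfl
      intro j _
      rcases zmod2_cases (F j) with h | h
      · rw [h]; simp
      · rw [h]; simp
    have hJne : J.Nonempty := by
      by_contra hne
      rw [Finset.not_nonempty_iff_eq_empty] at hne
      apply hf0
      ext i
      have h2 : ∀ j : I, F j = 0 := by
        intro j
        rcases zmod2_cases (F j) with h | h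
        · exact h
        · exfalso
          have : (j : ℕ) ∈ J := by
            rw [hJ, Finset.mem_map]
            exact ⟨j, Finset.mem_filter.2 ⟨Finset.mem_univ _, h⟩, rfl⟩
          rw [hne] at this
          exact absurd this (Finset.notMem_empty _)
      simp only [LinearMap.coe_comp, Function.comp_apply, LinearMap.zero_apply]
      rw [hf]
      simp [h2]
    have hJodd : ∀ j ∈ J, Odd j := by
      intro j hj
      rw [hJ, Finset.mem_map] at hj
      obtain ⟨i, -, rfl⟩ := hj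
      exact (Finset.mem_filter.1 i.2).2
    obtain ⟨c, -, hc⟩ := KL h0 hNC J hJne hJodd (fun c => ∑ j ∈ J, S φ m m 0 (j * c)) m (by
      intro c c' hcc
      apply Finset.sum_congr rfl
      intro j _
      exact S_congr (hcc.mul_left j))
    apply hc
    have h3 : (fun j : I => H φ m (j * (2 ^ m * c))) ∈ W := ⟨2 ^ m * c, dvd_mul_right _ _, fun j => rfl⟩
    have h4 := hfW h3
    rw [LinearMap.mem_ker] at h4
    have h5 := hsumJ (fun j => H φ m (j * (2 ^ m * c)))
    rw [h4] at h5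
    rw [← h5, ← Finset.sum_add_distrib]
    apply Finset.sum_congr rfl
    intro j _
    have h6 : j * (2 ^ m * c) = 0 + 2 ^ m * (j * c) := by ring
    rw [h6, H_split h0 _ (Nat.two_pow_pos m)]
    ring

end abs

/-! Relating `A` to first hits -/

/-- `e_v(n)` modulo `2` -/
def E (v : List Bool) (n : ℕ) : ZMod 2 := (e v n : ZMod 2)

lemma E_zero (v : List Bool) (hv : v ≠ []) : E v 0 = 0 := by
  unfold E; rw [e_zero v hv]; rfl

lemma E_rec (v : List Bool) {n : ℕ} (hn : n ≠ 0) :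
    E v n = E v (n / 2) + if n % 2 ^ v.length = lval v.reverse then 1 else 0 := by
  unfold E
  rw [e_rec v hn]
  push_cast
  rfl

/-- `l` is the first index at which the colour changes -/
def Hit (v : List Bool) (d l : ℕ) : Prop :=
  1 ≤ l ∧ E v (l * d) ≠ 0 ∧ ∀ j, 1 ≤ j → j < l → E v (j * d) = 0

lemma cond_iff (v : List Bool) (hv : v ≠ []) (d l : ℕ) :
    ¬ e v (0 + l * d) ≡ e v 0 [MOD 2] ↔ E v (l * d) ≠ 0 := by
  rw [zero_add, ← ZMod.natCast_eq_natCast_iff]
  change ¬ (E v (l * d) = E v 0) ↔ _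
  rw [E_zero v hv]

lemma A_of_hit {v : List Bool} (hv : v ≠ []) {d l : ℕ} (h : Hit v d l) : A v 0 d = (l : ℕ∞) := by
  unfold A
  apply le_antisymm
  · exact iInf₂_le l ⟨h.1, (cond_iff v hv d l).2 h.2.1⟩
  · apply le_iInf₂
    rintro j ⟨hj1, hj2⟩
    rw [cond_iff v hv] at hj2
    by_contra hlt
    rw [not_le] at hlt
    exact hj2 (h.2.2 j hj1 (by exact_mod_cast hlt))

lemma hit_of_exists {v : List Bool} {d : ℕ} (h : ∃ l, 1 ≤ l ∧ E v (l * d) ≠ 0) : ∃ l, Hit v d l := by
  classical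
  refine ⟨Nat.find h, (Nat.find_spec h).1, (Nat.find_spec h).2, ?_⟩
  intro j hj1 hj2
  have := Nat.find_min h hj2
  by_contra hne
  exact this ⟨hj1, hne⟩

lemma values_eq {v : List Bool} (hv : v ≠ []) (P : ℕ → Prop)
    (h1 : ∀ d, 1 ≤ d → ∃ l, Hit v d l) (h2 : ∀ d l, 1 ≤ d → Hit v d l → P l)
    (h3 : ∀ l, P l → ∃ d, 1 ≤ d ∧ Hit v d l) :
    {a : ℕ∞ | ∃ d : ℕ, 1 ≤ d ∧ a = A v 0 d} = {a | ∃ l : ℕ, a = (l : ℕ∞) ∧ P l} := by
  ext a
  constructor
  · rintro ⟨d, hd, rfl⟩
    obtain ⟨l, hl⟩ := h1 d hd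
    exact ⟨l, A_of_hit hv hl, h2 d l hd hl⟩
  · rintro ⟨l, rfl, hP⟩
    obtain ⟨d, hd, hl⟩ := h3 l hP
    exact ⟨d, hd, (A_of_hit hv hl).symm⟩

/-! Patterns containing a one -/

section nonzero

variable {v : List Bool} {m V : ℕ}

/-- indicator of `V` -/
def ind (V : ℕ) (x : ℕ) : ZMod 2 := if x = V then 1 else 0

lemma E_eq_H (hv : v ≠ []) (hm : v.length = m) (hV : lval v.reverse = V) (hV0 : V ≠ 0) (n : ℕ) :
    E v n = H (ind V) m n := by
  have h0 : ind V 0 = 0 := by unfold ind; rw [if_neg (Ne.symm hV0)]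
  induction n using Nat.strong_induction_on with
  | _ n ih =>
    by_cases hn : n = 0
    · subst hn; rw [E_zero v hv, H_zero]
    · rw [E_rec v hn, H_rec h0, ih (n / 2) (Nat.div_lt_self (Nat.pos_of_ne_zero hn) (by norm_num)), hm, hV]
      rw [add_comm]; rfl

lemma NC_ind (hm : 1 ≤ m) (hV0 : V ≠ 0) (hV : V < 2 ^ m) : NC (ind V) m := by
  have h0 : ind V 0 = 0 := by unfold ind; rw [if_neg (Ne.symm hV0)]
  rcases Nat.lt_or_ge m 2 with h2 | h2
  · have hm1 : m = 1 := by omega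
    subst hm1
    have hV1 : V = 1 := by omega
    apply NC_A h0 _ le_rfl
    simp [ind, hV1]
  · have hmm : 2 ^ m = 2 * 2 ^ (m - 1) := by rw [← pow_succ']; congr 1; omega
    have hev : 2 ∣ 2 ^ (m - 1) := dvd_pow_self 2 (by omega)
    have hpos : 2 ≤ 2 ^ (m - 1) := by
      calc 2 = 2 ^ 1 := by norm_num
        _ ≤ 2 ^ (m - 1) := Nat.pow_le_pow_right (by norm_num) (by omega)
    have hodd2 : ∀ x, (x % 2 ^ m) % 2 = x % 2 := fun x =>
      Nat.mod_mod_of_dvd x (dvd_pow_self 2 (by omega))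
    rcases Nat.even_or_odd V with he | ho
    · -- V even
      have h3 := Nat.even_iff.1 he
      apply NC_B h0 (V + 1) he.add_one h2
      have e1 : ind V ((V + 1) % 2 ^ m) = 0 := by
        unfold ind; rw [if_neg]; intro h
        have := hodd2 (V + 1); rw [h] at this; omega
      have e2 : ind V ((V + 1 - 1) % 2 ^ m) = 1 := by
        unfold ind; rw [if_pos]; rw [Nat.add_sub_cancel, Nat.mod_eq_of_lt hV]
      have e3 : ind V ((V + 1 + 2 ^ (m - 1)) % 2 ^ m) = 0 := by
        unfold ind; rw [if_neg]; intro h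
        have := hodd2 (V + 1 + 2 ^ (m - 1)); rw [h] at this; omega
      have e4 : ind V ((V + 1 - 1 + 2 ^ (m - 1)) % 2 ^ m) = 0 := by
        unfold ind; rw [if_neg]; intro h
        rw [Nat.add_sub_cancel] at h
        have h5 : V + 2 ^ (m - 1) ≡ V + 0 [MOD 2 ^ m] := by
          unfold Nat.ModEq; rw [h, add_zero, Nat.mod_eq_of_lt hV]
        have h6 := Nat.ModEq.add_left_cancel' V h5
        rw [Nat.modEq_zero_iff_dvd] at h6
        have := Nat.le_of_dvd (by omega) h6
        omega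
      rw [e1, e2, e3, e4]; rfl
    · have h3 := Nat.odd_iff.1 ho
      apply NC_B h0 V ho h2
      have e1 : ind V (V % 2 ^ m) = 1 := by
        unfold ind; rw [if_pos]; exact Nat.mod_eq_of_lt hV
      have e2 : ind V ((V - 1) % 2 ^ m) = 0 := by
        unfold ind; rw [if_neg]; intro h
        have := hodd2 (V - 1); rw [h] at this; omega
      have e3 : ind V ((V + 2 ^ (m - 1)) % 2 ^ m) = 0 := by
        unfold ind; rw [if_neg]; intro h
        have h5 : V + 2 ^ (m - 1) ≡ V + 0 [MOD 2 ^ m] := by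
          unfold Nat.ModEq; rw [h, add_zero, Nat.mod_eq_of_lt hV]
        have h6 := Nat.ModEq.add_left_cancel' V h5
        rw [Nat.modEq_zero_iff_dvd] at h6
        have := Nat.le_of_dvd (by omega) h6
        omega
      have e4 : ind V ((V - 1 + 2 ^ (m - 1)) % 2 ^ m) = 0 := by
        unfold ind; rw [if_neg]; intro h
        have := hodd2 (V - 1 + 2 ^ (m - 1)); rw [h] at this; omega
      rw [e1, e2, e3, e4]; rfl

/-- every colour sequence along the multiples of `d` changes -/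
lemma exists_hit_H {φ : ℕ → ZMod 2} (h0 : φ 0 = 0) (hNC : NC φ m) {d : ℕ} (hd : 1 ≤ d) :
    ∃ c, Odd c ∧ H φ m (c * d) ≠ 0 := by
  obtain ⟨δ, d', hd', hdd⟩ := Nat.exists_eq_two_pow_mul_odd (n := d) (by omega)
  obtain ⟨c, hc, hne⟩ := KL h0 hNC {d'} (Finset.singleton_nonempty _)
    (by intro j hj; rw [Finset.mem_singleton] at hj; rw [hj]; exact hd')
    (fun c => S φ m δ 0 (d' * c)) m (fun c c' h => S_congr (h.mul_left d'))
  refine ⟨c, hc, ?_⟩
  rw [Finset.sum_singleton] at hne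
  have : c * d = 0 + 2 ^ δ * (d' * c) := by rw [hdd]; ring
  rw [this, H_split h0 _ (Nat.two_pow_pos δ)]
  rwa [add_comm] at hne

end nonzero

lemma two_pow_odd_unique {a b x y : ℕ} (hx : Odd x) (hy : Odd y) (h : 2 ^ a * x = 2 ^ b * y) :
    a = b := by
  rcases lt_trichotomy a b with h1 | h1 | h1
  · exfalso
    obtain ⟨c, rfl⟩ := Nat.exists_eq_add_of_lt h1
    have h2 : 2 ^ a * x = 2 ^ a * (2 * (2 ^ c * y)) := by rw [h]; ring
    have h3 := Nat.eq_of_mul_eq_mul_left (Nat.two_pow_pos a) h2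
    rw [Nat.odd_iff] at hx; omega
  · exact h1
  · exfalso
    obtain ⟨c, rfl⟩ := Nat.exists_eq_add_of_lt h1
    have h2 : 2 ^ b * y = 2 ^ b * (2 * (2 ^ c * x)) := by rw [← h]; ring
    have h3 := Nat.eq_of_mul_eq_mul_left (Nat.two_pow_pos b) h2
    rw [Nat.odd_iff] at hy; omega

lemma H_two_pow_mul {φ : ℕ → ZMod 2} {m : ℕ} (h0 : φ 0 = 0) {x : ℕ} (hx : 2 ^ m ∣ x) (i : ℕ) :
    H φ m (2 ^ i * x) = H φ m x := by
  induction i with
  | zero => simp
  | succ i ih =>
    have h1 : 2 ^ (i + 1) * x = 2 * (2 ^ i * x) := by ring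
    have h2 : 2 ^ (i + 1) * x / 2 = 2 ^ i * x := by rw [h1]; omega
    rw [H_rec h0, h2, Nat.mod_eq_zero_of_dvd (Dvd.dvd.mul_left hx _), h0, ih, zero_add]

lemma hit_exists_nonzero {v : List Bool} {m V : ℕ} (hv : v ≠ []) (hm : v.length = m)
    (hV : lval v.reverse = V) (hV0 : V ≠ 0) {d : ℕ} (hd : 1 ≤ d) : ∃ l, Hit v d l := by
  have h0 : ind V 0 = 0 := by unfold ind; rw [if_neg (Ne.symm hV0)]
  have hm1 : 1 ≤ m := by rw [← hm]; exact List.length_pos_of_ne_nil hv
  have hlt : V < 2 ^ m := by rw [← hV, ← hm, ← List.length_reverse]; exact lval_lt _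
  obtain ⟨c, hc, hne⟩ := exists_hit_H h0 (NC_ind hm1 hV0 hlt) hd
  apply hit_of_exists
  exact ⟨c, hc.pos, by rw [E_eq_H hv hm hV hV0]; exact hne⟩

lemma hit_nonzero_even {v : List Bool} {m V s V' : ℕ} (hm : v.length = m)
    (hV : lval v.reverse = V) (hs : s < m) (hV' : Odd V') (hVV : V = 2 ^ s * V')
    {d l : ℕ} (hd : 1 ≤ d) (hl : Hit v d l) :
    Odd l ∨ ∃ μ k, 1 ≤ μ ∧ μ ≤ s ∧ Odd k ∧ k < 2 ^ (m - s) ∧ l = 2 ^ μ * k := by
  rcases Nat.even_or_odd l with he | ho
  swap
  · exact Or.inl ho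
  right
  obtain ⟨hl1, hl2, hl3⟩ := hl
  obtain ⟨μ, k, hk, hlk⟩ := Nat.exists_eq_two_pow_mul_odd (n := l) (by omega)
  obtain ⟨δ, d', hd', hdd⟩ := Nat.exists_eq_two_pow_mul_odd (n := d) (by omega)
  have hμ : 1 ≤ μ := by
    by_contra hcon
    have : μ = 0 := by omega
    rw [this, pow_zero, one_mul] at hlk
    rw [hlk] at he
    exact (Nat.not_even_iff_odd.2 hk) he
  -- even numbers below `l` give no hit
  have hstep : ∀ x, 1 ≤ x → E v (2 * x * d) = E v (x * d) + if 2 * x * d % 2 ^ m = V then 1 else 0 := by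
    intro x hx
    have hne : 2 * x * d ≠ 0 := by positivity
    rw [E_rec v hne, hm, hV]
    congr 2
    rw [mul_assoc]; omega
  have hmodl : l * d % 2 ^ m = V := by
    obtain ⟨y, hy⟩ := he
    have h1 : l = 2 * y := by omega
    have h2 := hstep y (by omega)
    rw [hl3 y (by omega) (by omega), ← h1, zero_add] at h2
    by_contra hcon
    rw [if_neg hcon] at h2
    exact hl2 h2
  have hms : 2 ^ m = 2 ^ s * (2 * 2 ^ (m - s - 1)) := by
    rw [← pow_succ', ← pow_add]; congr 1; omega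
  have hsum : μ + δ = s := by
    obtain ⟨q, hq⟩ : ∃ q, V + 2 ^ m * q = l * d := by
      have h1 := Nat.mod_add_div (l * d) (2 ^ m)
      rw [hmodl] at h1
      exact ⟨_, h1⟩
    have h2 : 2 ^ (μ + δ) * (k * d') = 2 ^ s * (V' + 2 * (2 ^ (m - s - 1) * q)) := by
      calc 2 ^ (μ + δ) * (k * d') = l * d := by rw [hlk, hdd]; ring
        _ = V + 2 ^ m * q := hq.symm
        _ = 2 ^ s * V' + (2 ^ s * (2 * 2 ^ (m - s - 1))) * q := by rw [hVV, hms]
        _ = _ := by ring
    exact two_pow_odd_unique (hk.mul hd') (hV'.add_even (even_two_mul _)) h2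
  refine ⟨μ, k, hμ, by omega, hk, ?_, hlk⟩
  by_contra hcon
  rw [not_lt] at hcon
  have hmm : 2 ^ (m - s) = 2 * 2 ^ (m - s - 1) := by rw [← pow_succ']; congr 1; omega
  have hklt : 2 ^ (m - s) < k := by
    rcases Nat.lt_or_ge (2 ^ (m - s)) k with h | h
    · exact h
    · exfalso
      rw [Nat.odd_iff] at hk; omega
  obtain ⟨μ', rfl⟩ := Nat.exists_eq_add_of_le' hμ
  set k' := k - 2 ^ (m - s) with hk'
  have hk'1 : 1 ≤ k' := by omega
  have hkk : k = k' + 2 ^ (m - s) := by omega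
  set y := 2 ^ μ' * k' with hy
  have hy1 : 1 ≤ y := Nat.mul_pos (Nat.two_pow_pos _) hk'1
  have hly : l = 2 * y + 2 ^ (μ' + 1) * 2 ^ (m - s) := by
    rw [hlk, hy]
    conv_lhs => rw [hkk]
    ring
  have h2pos : 0 < 2 ^ (μ' + 1) * 2 ^ (m - s) := Nat.mul_pos (Nat.two_pow_pos _) (Nat.two_pow_pos _)
  have h3 := hstep y hy1
  rw [hl3 y hy1 (by omega), hl3 (2 * y) (by omega) (by omega), zero_add] at h3
  have h4 : 2 * y * d % 2 ^ m = V := by
    rw [← hmodl, hly, add_mul]
    have h5 : 2 ^ (μ' + 1) * 2 ^ (m - s) * d = 2 ^ m * d' := by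
      rw [hdd]
      calc 2 ^ (μ' + 1) * 2 ^ (m - s) * (2 ^ δ * d') = 2 ^ (μ' + 1 + (m - s) + δ) * d' := by
            rw [pow_add, pow_add]; ring
        _ = 2 ^ m * d' := by congr 2; omega
    rw [h5, Nat.add_mul_mod_self_left]
  rw [if_pos h4] at h3
  exact absurd h3 (by decide)

lemma hit_nonzero_odd {v : List Bool} {m V : ℕ} (hv : v ≠ []) (hm : v.length = m)
    (hV : lval v.reverse = V) (hV0 : V ≠ 0) {l : ℕ} (hl : Odd l) : ∃ d, 1 ≤ d ∧ Hit v d l := by
  have h0 : ind V 0 = 0 := by unfold ind; rw [if_neg (Ne.symm hV0)]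
  have hm1 : 1 ≤ m := by rw [← hm]; exact List.length_pos_of_ne_nil hv
  have hlt : V < 2 ^ m := by rw [← hV, ← hm, ← List.length_reverse]; exact lval_lt _
  obtain ⟨c, hc, hT⟩ := surj h0 (NC_ind hm1 hV0 hlt) l (fun j => if j = l then 1 else 0)
  have h1 : H (ind V) m (l * c) = 1 := by rw [hT l le_rfl hl, if_pos rfl]
  refine ⟨c, ?_, hl.pos, ?_, ?_⟩
  · by_contra hcon
    have : c = 0 := by omega
    rw [this, mul_zero, H_zero] at h1
    exact absurd h1 (by decide)
  · rw [E_eq_H hv hm hV hV0, h1]; decide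
  · intro j hj1 hj2
    rw [E_eq_H hv hm hV hV0]
    obtain ⟨i, j', hj', hjj⟩ := Nat.exists_eq_two_pow_mul_odd (n := j) (by omega)
    have h2 : j' ≤ j := by
      rw [hjj]; exact Nat.le_mul_of_pos_left _ (Nat.two_pow_pos i)
    rw [hjj, mul_assoc, H_two_pow_mul h0 (Dvd.dvd.mul_left hc j'), hT j' (by omega) hj', if_neg (by omega)]

lemma hit_nonzero_mid {v : List Bool} {m V s V' : ℕ} (hv : v ≠ []) (hm : v.length = m)
    (hV : lval v.reverse = V) (hs : s < m) (hV' : Odd V') (hVV : V = 2 ^ s * V')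
    {μ k : ℕ} (hμ : 1 ≤ μ) (hμs : μ ≤ s) (hk : Odd k) (hks : k < 2 ^ (m - s)) :
    ∃ d, 1 ≤ d ∧ Hit v d (2 ^ μ * k) := by
  have hV0 : V ≠ 0 := by
    rw [hVV]; exact (Nat.mul_pos (Nat.two_pow_pos _) hV'.pos).ne'
  have h0 : ind V 0 = 0 := by unfold ind; rw [if_neg (Ne.symm hV0)]
  have hm1 : 1 ≤ m := by rw [← hm]; exact List.length_pos_of_ne_nil hv
  have hlt : V < 2 ^ m := by rw [← hV, ← hm, ← List.length_reverse]; exact lval_lt _
  have hms : 2 ^ m = 2 ^ s * 2 ^ (m - s) := by rw [← pow_add]; congr 1; omega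
  -- the multiplier
  obtain ⟨κ, hκ, hkκ⟩ : ∃ κ, Odd κ ∧ k * κ ≡ V' [MOD 2 ^ (m - s)] := by
    have hcop : Nat.Coprime k (2 ^ (m - s)) := Nat.Coprime.pow_right _ (Nat.coprime_two_right.2 hk)
    obtain ⟨κ0, -, hκ0⟩ := Nat.exists_mul_mod_eq_one_of_coprime hcop (Nat.one_lt_two_pow (by omega))
    have h1 : k * κ0 ≡ 1 [MOD 2 ^ (m - s)] := by
      unfold Nat.ModEq; rw [hκ0, Nat.mod_eq_of_lt (Nat.one_lt_two_pow (by omega))]
    have h2 : Odd (k * κ0) := by
      have h3 : k * κ0 ≡ 1 [MOD 2] := h1.of_dvd (dvd_pow_self 2 (by omega))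
      rw [Nat.odd_iff]; exact h3
    refine ⟨κ0 * V', (Nat.odd_mul.1 h2).2.mul hV', ?_⟩
    have h4 := h1.mul_right V'
    rwa [one_mul, mul_assoc] at h4
  set l := 2 ^ μ * k with hl
  have hl1 : 1 ≤ l := Nat.mul_pos (Nat.two_pow_pos _) hk.pos
  set c0 := 2 ^ (s - μ) * κ with hc0
  have hc01 : 1 ≤ c0 := Nat.mul_pos (Nat.two_pow_pos _) hκ.pos
  obtain ⟨c, hc, hT⟩ := surj h0 (NC_ind hm1 hV0 hlt) l (fun j => H (ind V) m (j * c0))
  set K := m + l * c0 with hK
  have hKlt : ∀ j ≤ l, j * c0 < 2 ^ K := by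
    intro j hj
    calc j * c0 ≤ l * c0 := Nat.mul_le_mul_right _ hj
      _ ≤ K := by omega
      _ < 2 ^ K := Nat.lt_two_pow_self
  set d := c0 + 2 ^ K * c with hd
  have hmul : ∀ j, j * d = j * c0 + 2 ^ K * (j * c) := by intro j; rw [hd]; ring
  have hodd : ∀ j ≤ l, Odd j → E v (j * d) = 0 := by
    intro j hj hjo
    rw [E_eq_H hv hm hV hV0, hmul, H_add h0 (hKlt j hj) (Dvd.dvd.mul_left hc _), hT j hj hjo]
    exact CharTwo.add_self_eq_zero _
  have hdmod : ∀ j, j * d ≡ j * c0 [MOD 2 ^ m] := by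
    intro j
    rw [hmul]
    have h1 : 2 ^ K * (j * c) ≡ 0 [MOD 2 ^ m] :=
      (Nat.modEq_zero_iff_dvd).2 (Dvd.dvd.mul_left (Dvd.dvd.mul_left hc _) _)
    exact (h1.add_left (j * c0))
  have hls : l * 2 ^ (s - μ) = 2 ^ s * k := by
    calc l * 2 ^ (s - μ) = 2 ^ (μ + (s - μ)) * k := by rw [hl, pow_add]; ring
      _ = _ := by congr 2; omega
  have hlc0 : l * c0 ≡ V [MOD 2 ^ m] := by
    have h1 : l * c0 = 2 ^ s * (k * κ) := by
      rw [hc0, ← mul_assoc, hls]; ring
    rw [h1, hVV, hms]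
    exact Nat.ModEq.mul_left' _ hkκ
  have hiff : ∀ x, x ≤ l → (x * d % 2 ^ m = V ↔ x = l) := by
    intro x hx
    constructor
    · intro h1
      have h2 : x * d ≡ V [MOD 2 ^ m] := by
        unfold Nat.ModEq; rw [h1, Nat.mod_eq_of_lt hlt]
      have h3 : x * c0 ≡ l * c0 [MOD 2 ^ m] := (hdmod x).symm.trans (h2.trans hlc0.symm)
      rw [hc0, ← mul_assoc, ← mul_assoc] at h3
      have hcop : Nat.gcd (2 ^ m) κ = 1 := by
        have := Nat.Coprime.pow_left m (Nat.coprime_two_left.2 hκ)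
        exact this
      have h4 := Nat.ModEq.cancel_right_of_coprime hcop h3
      have h5 : l * 2 ^ (s - μ) < 2 ^ m := by
        rw [hls, hms]
        exact Nat.mul_lt_mul_of_pos_left hks (Nat.two_pow_pos s)
      have h6 : x * 2 ^ (s - μ) ≤ l * 2 ^ (s - μ) := Nat.mul_le_mul_right _ hx
      have h7 := Nat.ModEq.eq_of_lt_of_lt h4 (lt_of_le_of_lt h6 h5) h5
      exact Nat.eq_of_mul_eq_mul_right (Nat.two_pow_pos _) h7
    · rintro rfl
      have h2 : l * d ≡ V [MOD 2 ^ m] := (hdmod l).trans hlc0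
      unfold Nat.ModEq at h2
      rwa [Nat.mod_eq_of_lt hlt] at h2
  have hd1 : 1 ≤ d := by omega
  have hstep : ∀ x, 1 ≤ x → E v (2 * x * d) = E v (x * d) + if 2 * x * d % 2 ^ m = V then 1 else 0 := by
    intro x hx
    have hne : 2 * x * d ≠ 0 := by positivity
    rw [E_rec v hne, hm, hV]
    congr 2
    rw [mul_assoc]; omega
  have hzero : ∀ x, 1 ≤ x → x < l → E v (x * d) = 0 := by
    intro x
    induction x using Nat.strong_induction_on with
    | _ x ih =>
      intro hx1 hx2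
      rcases Nat.even_or_odd x with he | ho
      · obtain ⟨y, hy⟩ := he
        have hxy : x = 2 * y := by omega
        rw [hxy, hstep y (by omega), ih y (by omega) (by omega) (by omega), if_neg, zero_add]
        intro h
        have := (hiff (2 * y) (by omega)).1 h
        omega
      · exact hodd x hx2.le ho
  refine ⟨d, hd1, hl1, ?_, hzero⟩
  obtain ⟨μ', hμ'⟩ := Nat.exists_eq_add_of_le' hμ
  set y := 2 ^ μ' * k with hy
  have hly : l = 2 * y := by rw [hl, hy, hμ', pow_succ]; ring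
  rw [hly, hstep y (by omega), hzero y (by omega) (by omega), if_pos, zero_add]
  · decide
  · rw [← hly]; exact (hiff l le_rfl).2 rfl

/-! Patterns consisting of zeros -/

/-- `1` except at `0` -/
def cind (x : ℕ) : ZMod 2 := if x = 0 then 0 else 1

lemma cind_zero : cind 0 = 0 := by unfold cind; rw [if_pos rfl]

lemma NC_cind {m : ℕ} (hm : 1 ≤ m) : NC cind m := by
  apply NC_A cind_zero _ hm
  unfold cind
  rw [if_neg]
  have : 2 ≤ 2 ^ m := by
    calc 2 = 2 ^ 1 := by norm_num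
      _ ≤ 2 ^ m := Nat.pow_le_pow_right (by norm_num) hm
  omega

lemma size_rec {n : ℕ} (hn : n ≠ 0) : Nat.size n = Nat.size (n / 2) + 1 := by
  rw [← Nat.size_eq_bits_len, ← Nat.size_eq_bits_len, bits_of_pos hn, List.length_cons]

lemma E_eq_H_zero {v : List Bool} {m : ℕ} (hv : v ≠ []) (hm : v.length = m)
    (hV : lval v.reverse = 0) (n : ℕ) : E v n = H cind m n + (Nat.size n : ZMod 2) := by
  induction n using Nat.strong_induction_on with
  | _ n ih =>
    by_cases hn : n = 0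
    · subst hn; rw [E_zero v hv, H_zero]; simp
    · rw [E_rec v hn, H_rec cind_zero, ih (n / 2) (Nat.div_lt_self (Nat.pos_of_ne_zero hn) (by norm_num)), hm, hV,
        size_rec hn]
      push_cast
      have h1 : (if n % 2 ^ m = 0 then (1 : ZMod 2) else 0) = cind (n % 2 ^ m) + 1 := by
        unfold cind
        split_ifs
        · rw [zero_add]
        · decide
      rw [h1]; ring

lemma size_add_mul {x P j : ℕ} (hx : x < 2 ^ P) (hj : 1 ≤ j) :
    Nat.size (x + 2 ^ P * j) = P + Nat.size j := by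
  apply le_antisymm
  · rw [Nat.size_le, pow_add]
    have h1 : j < 2 ^ Nat.size j := Nat.lt_size_self j
    calc x + 2 ^ P * j < 2 ^ P + 2 ^ P * j := by omega
      _ = 2 ^ P * (j + 1) := by ring
      _ ≤ 2 ^ P * 2 ^ Nat.size j := Nat.mul_le_mul_left _ h1
  · obtain ⟨t, ht⟩ : ∃ t, Nat.size j = t + 1 := by
      have h2 : 0 < Nat.size j := Nat.size_pos.2 hj
      exact ⟨Nat.size j - 1, by omega⟩
    have h3 : 2 ^ t ≤ j := by rw [← Nat.lt_size]; omega
    have h4 : P + t < Nat.size (x + 2 ^ P * j) := by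
      rw [Nat.lt_size, pow_add]
      calc 2 ^ P * 2 ^ t ≤ 2 ^ P * j := Nat.mul_le_mul_left _ h3
        _ ≤ _ := by omega
    omega

section zero
variable {v : List Bool} {m : ℕ}

lemma step_zero (hm : v.length = m) (hV : lval v.reverse = 0) {d : ℕ} (hd : 1 ≤ d) (x : ℕ) (hx : 1 ≤ x) :
    E v (2 * x * d) = E v (x * d) + if 2 * x * d % 2 ^ m = 0 then 1 else 0 := by
  have hne : 2 * x * d ≠ 0 := by positivity
  rw [E_rec v hne, hm, hV]
  congr 2
  rw [mul_assoc]; omega

lemma step_top (hm : v.length = m) (hm1 : 1 ≤ m) (hV : lval v.reverse = 0) {d : ℕ} (hd : 1 ≤ d) :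
    E v (2 ^ m * d) = E v (2 ^ (m - 1) * d) + 1 := by
  have h1 : 2 ^ m = 2 * 2 ^ (m - 1) := by rw [← pow_succ']; congr 1; omega
  have h2 := step_zero hm hV hd (2 ^ (m - 1)) (Nat.one_le_two_pow)
  rw [← h1, if_pos (Nat.mul_mod_right _ _)] at h2
  exact h2

lemma hit_exists_zero (hm : v.length = m) (hm1 : 1 ≤ m) (hV : lval v.reverse = 0) {d : ℕ} (hd : 1 ≤ d) :
    ∃ l, Hit v d l ∧ l ≤ 2 ^ m := by
  have h1 := step_top hm hm1 hV hd
  have h2 : ∃ l, 1 ≤ l ∧ E v (l * d) ≠ 0 := by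
    by_contra hcon
    push Not at hcon
    rw [hcon _ Nat.one_le_two_pow, hcon _ Nat.one_le_two_pow] at h1
    exact absurd h1 (by decide)
  obtain ⟨l, hl⟩ := hit_of_exists h2
  refine ⟨l, hl, ?_⟩
  by_contra hcon
  rw [not_le] at hcon
  have h3 : 2 ^ (m - 1) ≤ 2 ^ m := Nat.pow_le_pow_right (by norm_num) (by omega)
  rw [hl.2.2 _ Nat.one_le_two_pow hcon, hl.2.2 _ Nat.one_le_two_pow (by omega)] at h1
  exact absurd h1 (by decide)

lemma hit_unique {v : List Bool} {d l l' : ℕ} (h : Hit v d l) (h' : Hit v d l') : l = l' := by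
  rcases lt_trichotomy l l' with h1 | h1 | h1
  · exact absurd (h'.2.2 l h.1 h1) h.2.1
  · exact h1
  · exact absurd (h.2.2 l' h'.1 h1) h'.2.1

lemma hit_zero_form (hm : v.length = m) (hm1 : 1 ≤ m) (hV : lval v.reverse = 0) {d l : ℕ}
    (hd : 1 ≤ d) (hl : Hit v d l) : (Odd l ∧ l < 2 ^ m) ∨ ∃ i, 1 ≤ i ∧ i ≤ m ∧ l = 2 ^ i := by
  obtain ⟨l', hl', hle⟩ := hit_exists_zero hm hm1 hV hd
  rw [← hit_unique hl hl'] at hle
  rcases Nat.even_or_odd l with he | ho
  swap
  · left
    refine ⟨ho, lt_of_le_of_ne hle ?_⟩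
    rintro rfl
    have := (Nat.even_pow' (m := 2) (n := m) (by omega)).2 even_two
    exact (Nat.not_even_iff_odd.2 ho) this
  right
  obtain ⟨hl1, hl2, hl3⟩ := hl
  obtain ⟨μ, k, hk, hlk⟩ := Nat.exists_eq_two_pow_mul_odd (n := l) (by omega)
  have hμ : 1 ≤ μ := by
    by_contra hcon
    have : μ = 0 := by omega
    rw [this, pow_zero, one_mul] at hlk
    rw [hlk] at he
    exact (Nat.not_even_iff_odd.2 hk) he
  have hmodl : l * d % 2 ^ m = 0 := by
    obtain ⟨y, hy⟩ := he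
    have h1 : l = 2 * y := by omega
    have h2 := step_zero hm hV hd y (by omega)
    rw [hl3 y (by omega) (by omega), ← h1, zero_add] at h2
    by_contra hcon
    rw [if_neg hcon] at h2
    exact hl2 h2
  obtain ⟨μ', rfl⟩ := Nat.exists_eq_add_of_le' hμ
  have hk1 : k = 1 := by
    by_contra hk1
    have hk2 : 1 < k := by have := hk.pos; omega
    have h1 : 2 ^ (μ' + 1) < l := by
      rw [hlk]
      exact (Nat.lt_mul_iff_one_lt_right (Nat.two_pow_pos _)).2 hk2
    have h2 : 2 ^ (μ' + 1) * d % 2 ^ m = 0 := by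
      have h3 : 2 ^ m ∣ k * (2 ^ (μ' + 1) * d) := by
        have := Nat.dvd_of_mod_eq_zero hmodl
        rw [hlk] at this
        have h4 : 2 ^ (μ' + 1) * k * d = k * (2 ^ (μ' + 1) * d) := by ring
        rwa [h4] at this
      exact Nat.mod_eq_zero_of_dvd
        (Nat.Coprime.dvd_of_dvd_mul_left (Nat.Coprime.pow_left m (Nat.coprime_two_left.2 hk)) h3)
    have h3 : 2 ^ (μ' + 1) = 2 * 2 ^ μ' := pow_succ' 2 μ'
    have hpos := Nat.two_pow_pos μ'
    have h4 := step_zero hm hV hd (2 ^ μ') hpos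
    rw [← h3, if_pos h2, hl3 _ hpos (by omega), hl3 _ (by omega) h1] at h4
    exact absurd h4 (by decide)
  rw [hk1, mul_one] at hlk
  refine ⟨μ' + 1, hμ, ?_, hlk⟩
  rw [hlk] at hle
  exact (Nat.pow_le_pow_iff_right (by norm_num)).1 hle

/-- the colours of the first `2 ^ m - 1` multiples of a suitable odd `d` are arbitrary -/
lemma choose_d_zero (hv : v ≠ []) (hm : v.length = m) (hm1 : 1 ≤ m) (hV : lval v.reverse = 0)
    (T : ℕ → ZMod 2) : ∃ d, Odd d ∧ (∀ j ≤ 2 ^ m, Odd j → E v (j * d) = T j) ∧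
      ∀ x, 1 ≤ x → 2 * x < 2 ^ m → E v (2 * x * d) = E v (x * d) := by
  obtain ⟨c, hc, hT⟩ := surj cind_zero (NC_cind hm1) (2 ^ m)
    (fun j => T j + H cind m j + H cind m (2 ^ m * j) + (Nat.size j : ZMod 2))
  set K := 2 ^ m with hK
  have hKpos : 1 ≤ K := Nat.one_le_two_pow
  have hKlt : ∀ j ≤ K, j < 2 ^ K := fun j hj => lt_of_le_of_lt hj Nat.lt_two_pow_self
  set B := K + 2 ^ K * (K * c) with hB
  have hBlt : ∀ j ≤ K, j + 2 ^ K * (j * c) < 2 ^ (2 * B) := by
    intro j hj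
    calc j + 2 ^ K * (j * c) ≤ B :=
          Nat.add_le_add hj (Nat.mul_le_mul_left _ (Nat.mul_le_mul_right _ hj))
      _ ≤ 2 * B := by omega
      _ < 2 ^ (2 * B) := Nat.lt_two_pow_self
  -- total shift `2 * B + 2 * m`
  set P := 2 * B + m with hP
  have hPlt : ∀ j ≤ K, j + 2 ^ K * (j * c) < 2 ^ P := fun j hj =>
    lt_of_lt_of_le (hBlt j hj) (Nat.pow_le_pow_right (by norm_num) (by omega))
  set d := 1 + 2 ^ K * c + 2 ^ (P + m) with hd
  have hmul : ∀ j, j * d = (j + 2 ^ K * (j * c)) + 2 ^ P * (2 ^ m * j) := by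
    intro j
    rw [hd, pow_add]; ring
  have hmul' : ∀ j, j * d = (j + 2 ^ K * (j * c)) + 2 ^ (P + m) * j := by
    intro j
    rw [hd]; ring
  have hdodd : Odd d := by
    rw [hd]
    have h1 : Even (2 ^ K * c) := ((Nat.even_pow' (by omega)).2 even_two).mul_right _
    have h2 : Even (2 ^ (P + m)) := (Nat.even_pow' (by omega)).2 even_two
    exact (odd_one.add_even h1).add_even h2
  refine ⟨d, hdodd, ?_, ?_⟩
  · intro j hj hjo
    rw [E_eq_H_zero hv hm hV]
    have h1 : Nat.size (j * d) = P + m + Nat.size j := by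
      rw [hmul', size_add_mul _ hjo.pos]
      exact lt_of_lt_of_le (hPlt j hj) (Nat.pow_le_pow_right (by norm_num) (by omega))
    have h2 : ((P + m : ℕ) : ZMod 2) = 0 := by
      rw [ZMod.natCast_eq_zero_iff]
      exact ⟨B + m, by omega⟩
    rw [h1, Nat.cast_add, h2, zero_add, hmul, H_add cind_zero (hPlt j hj) (dvd_mul_right _ _),
      H_add cind_zero (hKlt j hj) (Dvd.dvd.mul_left hc _), hT j hj hjo]
    have hx : ∀ x : ZMod 2, x + x = 0 := CharTwo.add_self_eq_zero
    have e1 := hx (H cind m j)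
    have e2 := hx (H cind m (2 ^ m * j))
    have e3 := hx (Nat.size j : ZMod 2)
    linear_combination e1 + e2 + e3
  · intro x hx1 hx2
    rw [step_zero hm hV hdodd.pos x hx1, if_neg, add_zero]
    intro h
    have h3 : 2 ^ m ∣ 2 * x := Nat.Coprime.dvd_of_dvd_mul_right
      (Nat.Coprime.pow_left m (Nat.coprime_two_left.2 hdodd)) (Nat.dvd_of_mod_eq_zero h)
    have := Nat.le_of_dvd (by omega) h3
    omega

lemma zero_below {d L : ℕ} (h1 : ∀ j < L, Odd j → E v (j * d) = 0)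
    (h2 : ∀ x, 1 ≤ x → 2 * x < L → E v (2 * x * d) = E v (x * d)) :
    ∀ x, 1 ≤ x → x < L → E v (x * d) = 0 := by
  intro x
  induction x using Nat.strong_induction_on with
  | _ x ih =>
    intro hx1 hx2
    rcases Nat.even_or_odd x with he | ho
    · obtain ⟨y, hy⟩ := he
      have hxy : x = 2 * y := by omega
      rw [hxy, h2 y (by omega) (by omega), ih y (by omega) (by omega) (by omega)]
    · exact h1 x hx2 ho

lemma hit_zero_odd (hv : v ≠ []) (hm : v.length = m) (hm1 : 1 ≤ m) (hV : lval v.reverse = 0) {l : ℕ}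
    (hlo : Odd l) (hlt : l < 2 ^ m) : ∃ d, 1 ≤ d ∧ Hit v d l := by
  obtain ⟨d, hd, h1, h2⟩ := choose_d_zero hv hm hm1 hV (fun j => if j = l then 1 else 0)
  refine ⟨d, hd.pos, hlo.pos, ?_, ?_⟩
  · rw [h1 l hlt.le hlo, if_pos rfl]; decide
  · apply zero_below
    · intro j hj hjo
      rw [h1 j (by omega) hjo, if_neg (by omega)]
    · intro x hx1 hx2
      exact h2 x hx1 (by omega)

lemma hit_zero_pow (hv : v ≠ []) (hm : v.length = m) (hm1 : 1 ≤ m) (hV : lval v.reverse = 0) {i : ℕ}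
    (hi : i ≤ m) : ∃ d, 1 ≤ d ∧ Hit v d (2 ^ i) := by
  obtain ⟨d, hd, h1, h2⟩ := choose_d_zero hv hm hm1 hV (fun _ => 0)
  have h3 : ∀ x, 1 ≤ x → x < 2 ^ m → E v (x * d) = 0 := by
    apply zero_below
    · intro j hj hjo
      exact h1 j hj.le hjo
    · exact h2
  have hpow : ∀ x, x * (2 ^ (m - i) * d) = (x * 2 ^ (m - i)) * d := fun x => by ring
  have hmi : 2 ^ i * 2 ^ (m - i) = 2 ^ m := by rw [← pow_add]; congr 1; omega
  refine ⟨2 ^ (m - i) * d, Nat.mul_pos (Nat.two_pow_pos _) hd.pos, Nat.one_le_two_pow, ?_, ?_⟩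
  · rw [hpow, hmi, step_top hm hm1 hV hd.pos, h3 _ Nat.one_le_two_pow
      (Nat.pow_lt_pow_right (by norm_num) (by omega)), zero_add]
    decide
  · intro j hj1 hj2
    rw [hpow]
    apply h3
    · exact Nat.mul_pos hj1 (Nat.two_pow_pos _)
    · rw [← hmi]
      exact Nat.mul_lt_mul_of_pos_right hj2 (Nat.two_pow_pos _)

end zero

/-- **Full answer to Q1.** -/
theorem result (v : List Bool) (hv : v ≠ []) :
    (true ∈ v →
      {a : ℕ∞ | ∃ d : ℕ, 1 ≤ d ∧ a = A v 0 d} =
        {a : ℕ∞ | ∃ l : ℕ, a = (l : ℕ∞) ∧ (Odd l ∨ ∃ μ k : ℕ, 1 ≤ μ ∧ μ ≤ trailingZeros v ∧ Odd k ∧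
          k < 2 ^ (v.length - trailingZeros v) ∧ l = 2 ^ μ * k)}) ∧
    (true ∉ v →
      {a : ℕ∞ | ∃ d : ℕ, 1 ≤ d ∧ a = A v 0 d} =
        {a : ℕ∞ | ∃ l : ℕ, a = (l : ℕ∞) ∧ ((Odd l ∧ l < 2 ^ v.length) ∨
          ∃ i : ℕ, 1 ≤ i ∧ i ≤ v.length ∧ l = 2 ^ i)}) := by
  have hm1 : 1 ≤ v.length := List.length_pos_of_ne_nil hv
  constructor
  · intro h1
    obtain ⟨hs, V', hV', hVV⟩ := lval_factor v.reverse (by simpa using h1)
    rw [List.length_reverse] at hs
    have hV0 : lval v.reverse ≠ 0 := by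
      rw [hVV]; exact (Nat.mul_pos (Nat.two_pow_pos _) hV'.pos).ne'
    apply values_eq hv
    · intro d hd
      exact hit_exists_nonzero hv rfl rfl hV0 hd
    · intro d l hd hl
      exact hit_nonzero_even rfl rfl hs hV' hVV hd hl
    · rintro l (hl | ⟨μ, k, hμ, hμs, hk, hks, rfl⟩)
      · exact hit_nonzero_odd hv rfl rfl hV0 hl
      · exact hit_nonzero_mid hv rfl rfl hs hV' hVV hμ hμs hk hks
  · intro h1
    have hV : lval v.reverse = 0 := lval_zero_of_not_mem _ (by simpa using h1)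
    apply values_eq hv
    · intro d hd
      obtain ⟨l, hl, -⟩ := hit_exists_zero rfl hm1 hV hd
      exact ⟨l, hl⟩
    · intro d l hd hl
      exact hit_zero_form rfl hm1 hV hd hl
    · rintro l (⟨hl, hlt⟩ | ⟨i, -, hi, rfl⟩)
      · exact hit_zero_odd hv rfl hm1 hV hl hlt
      · exact hit_zero_pow hv rfl hm1 hV hi

end Pool.Agent.Results.MP_956764_co.ValuesAtZero
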